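import Pool.Agent.Helper83.RelL.Leaf

/-!
# TOWERS, T2: the ring of the elements which are integral at the bad places is a principal ideal
domain
-/

set_option autoImplicit false

namespace Pool.Agent.Helper28.TW

open NumberField Pool.Agent.Helper4.CB Pool.Agent.Helper69.CB IsDedekindDomain

/-- the elements which are integral at the bad places -/
def badInt (L : Type) [Field L] [NumberField L] (Λ : Finset ℕ) (J : ℕ) : Subring L where
  carrier := {x | ∀ w : Pl L, Pool.Agent.Helper65.CL.Bad Λ J w → vl w x ≤ 1}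
  mul_mem' := fun {x y} hx hy w hw => by
    rw [map_mul]
    exact mul_le_one' (hx w hw) (hy w hw)
  one_mem' := fun w _ => by rw [map_one]
  add_mem' := fun {x y} hx hy w hw => (Valuation.map_add _ _ _).trans (max_le (hx w hw) (hy w hw))
  zero_mem' := fun w _ => by
    rw [map_zero]
    exact zero_le_one
  neg_mem' := fun {x} hx w hw => by
    rw [Valuation.map_neg]
    exact hx w hw

theorem mem_badInt {L : Type} [Field L] [NumberField L] {Λ : Finset ℕ} {J : ℕ} {x : L} :
    x ∈ badInt L Λ J ↔ ∀ w : Pl L, Pool.Agent.Helper65.CL.Bad Λ J w → vl w x ≤ 1 := Iff.rfl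

theorem int_mem {L : Type} [Field L] [NumberField L] (Λ : Finset ℕ) (J : ℕ) (a : 𝓞 L) :
    algebraMap (𝓞 L) L a ∈ badInt L Λ J := fun w _ => w.valuation_le_one a

/-- ideals which represent the classes and are not contained in bad primes -/
theorem exists_reps (L : Type) [Field L] [NumberField L] {Λ : Finset ℕ} (hΛ : ∀ l ∈ Λ, 2 ≤ l) :
    ∃ J0 : ℕ, ∀ J, J0 ≤ J → ∀ D : Ideal (𝓞 L), D ≠ ⊥ → ∃ (I : Ideal (𝓞 L)) (s : 𝓞 L), s ≠ 0 ∧
      D * I = Ideal.span {s} ∧
      ∀ p : Pl L, Pool.Agent.Helper65.CL.Bad Λ J p → ∃ i ∈ I, i ∉ p.asIdeal := by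
  classical
  choose I hI using ClassGroup.mk0_surjective (R := 𝓞 L)
  have hx : ∀ c, ∃ x ∈ (I c : Ideal (𝓞 L)), x ≠ 0 := fun c =>
    Submodule.exists_mem_ne_zero_of_ne_bot (nonZeroDivisors.ne_zero (I c).2)
  choose x hx hx0 using hx
  obtain ⟨J0, hJ0⟩ := Pool.Agent.Helper56.CL.start L hΛ
    (Finset.univ.image fun c => algebraMap (𝓞 L) L (x c)) 0
  refine ⟨J0, fun J hJ D hD => ?_⟩
  set D0 : nonZeroDivisors (Ideal (𝓞 L)) := ⟨D, mem_nonZeroDivisors_of_ne_zero hD⟩ with hD0
  set c := (ClassGroup.mk0 D0)⁻¹ with hc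
  have h1 : ClassGroup.mk0 (D0 * I c) = 1 := by
    rw [map_mul, hI, hc, mul_inv_cancel]
  rw [ClassGroup.mk0_eq_one_iff] at h1
  obtain ⟨s, hs⟩ := h1.principal
  have hs' : D * (I c : Ideal (𝓞 L)) = Ideal.span {s} := hs
  refine ⟨I c, s, ?_, hs', fun p hp => ⟨x c, hx c, fun hmem => ?_⟩⟩
  · rintro rfl
    have h2 : (D * (I c : Ideal (𝓞 L))) = ⊥ := by rw [hs', Ideal.span_singleton_eq_bot]
    rcases Ideal.mul_eq_bot.1 h2 with h3 | h3
    · exact hD h3
    · exact nonZeroDivisors.ne_zero (I c).2 h3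
  · have h8 := (hJ0 J hJ p hp).2 (algebraMap (𝓞 L) L (x c))
      (Finset.mem_image_of_mem _ (Finset.mem_univ c))
      (by
        rw [Ne, FaithfulSMul.algebraMap_eq_zero_iff]
        exact hx0 c)
    have h9 := (p.valuation_lt_one_iff_mem (K := L) (x c)).2 hmem
    exact absurd h8 (ne_of_lt h9)

/-- denominators which are units at the bad places -/
theorem exists_den (L : Type) [Field L] [NumberField L] {Λ : Finset ℕ} {J : ℕ}
    (hrep : ∀ D : Ideal (𝓞 L), D ≠ ⊥ → ∃ (I : Ideal (𝓞 L)) (s : 𝓞 L), s ≠ 0 ∧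
      D * I = Ideal.span {s} ∧
      ∀ p : Pl L, Pool.Agent.Helper65.CL.Bad Λ J p → ∃ i ∈ I, i ∉ p.asIdeal)
    (x : L) (hx : x ∈ badInt L Λ J) :
    ∃ (s y : 𝓞 L), s ≠ 0 ∧ (∀ p : Pl L, Pool.Agent.Helper65.CL.Bad Λ J p → s ∉ p.asIdeal) ∧
      algebraMap (𝓞 L) L s * x = algebraMap (𝓞 L) L y := by
  obtain ⟨a, b, hb, rfl⟩ := IsFractionRing.div_surjective (A := 𝓞 L) x
  have hb0 : b ≠ 0 := nonZeroDivisors.ne_zero hb
  have hbL : algebraMap (𝓞 L) L b ≠ 0 := by
    rwa [Ne, FaithfulSMul.algebraMap_eq_zero_iff]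
  obtain ⟨g, hg⟩ : ∃ g : Ideal (𝓞 L), g = Ideal.span {a, b} := ⟨_, rfl⟩
  have hbg : b ∈ g := by
    rw [hg]
    exact Ideal.subset_span (by simp)
  have hag : a ∈ g := by
    rw [hg]
    exact Ideal.subset_span (by simp)
  have hdvd : g ∣ Ideal.span {b} := by
    rw [Ideal.dvd_iff_le, Ideal.span_singleton_le_iff_mem]
    exact hbg
  obtain ⟨D, hD⟩ := hdvd
  have hD0 : D ≠ ⊥ := by
    rintro rfl
    rw [Ideal.mul_bot, Ideal.span_singleton_eq_bot] at hD
    exact hb0 hD
  obtain ⟨I, s, hs0, hDI, hI⟩ := hrep D hD0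
  have hsD : s ∈ D := by
    have h1 : s ∈ D * I := by
      rw [hDI]
      exact Ideal.mem_span_singleton_self s
    have h2 : D * I ≤ D := Ideal.mul_le_left
    exact h2 h1
  have hsa : s * a ∈ Ideal.span {b} := by
    have h1 : a * s ∈ g * D := Ideal.mul_mem_mul hag hsD
    rw [← hD] at h1
    rw [mul_comm s a]
    exact h1
  obtain ⟨y, hy⟩ := Ideal.mem_span_singleton'.1 hsa
  refine ⟨s, y, hs0, fun p hp hsp => ?_, ?_⟩
  · -- `D` is not contained in `p`
    have hDp : ¬ D ≤ p.asIdeal := by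
      intro hle
      have hv := hx p hp
      have hab : vl p (algebraMap (𝓞 L) L a) ≤ vl p (algebraMap (𝓞 L) L b) := by
        rw [map_div₀] at hv
        have h3 : vl p (algebraMap (𝓞 L) L b) ≠ 0 := by
          rw [Ne, Valuation.zero_iff]
          exact hbL
        rwa [div_le_one₀ (zero_lt_iff.2 h3)] at hv
      have hvb : vl p (algebraMap (𝓞 L) L b) ≠ 0 := by
        rw [Ne, Valuation.zero_iff]
        exact hbL
      have hgv : ∀ z ∈ g, vl p (algebraMap (𝓞 L) L z) ≤ vl p (algebraMap (𝓞 L) L b) := by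
        intro z hz
        rw [hg] at hz
        obtain ⟨c, d, rfl⟩ := Ideal.mem_span_pair.1 hz
        rw [map_add, map_mul, map_mul]
        refine (Valuation.map_add _ _ _).trans (max_le ?_ ?_)
        · rw [map_mul]
          calc vl p (algebraMap (𝓞 L) L c) * vl p (algebraMap (𝓞 L) L a) ≤
              1 * vl p (algebraMap (𝓞 L) L b) := mul_le_mul' (p.valuation_le_one c) hab
            _ = _ := one_mul _
        · rw [map_mul]
          calc vl p (algebraMap (𝓞 L) L d) * vl p (algebraMap (𝓞 L) L b) ≤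
              1 * vl p (algebraMap (𝓞 L) L b) := mul_le_mul' (p.valuation_le_one d) le_rfl
            _ = _ := one_mul _
      have hmul : ∀ z ∈ g * D, vl p (algebraMap (𝓞 L) L z) < vl p (algebraMap (𝓞 L) L b) := by
        intro z hz
        induction hz using Submodule.mul_induction_on' with
        | mem_mul_mem m hm n hn =>
          rw [map_mul, map_mul]
          have h5 : vl p (algebraMap (𝓞 L) L n) < 1 :=
            (p.valuation_lt_one_iff_mem (K := L) n).2 (hle hn)
          calc vl p (algebraMap (𝓞 L) L m) * vl p (algebraMap (𝓞 L) L n) ≤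
              vl p (algebraMap (𝓞 L) L b) * vl p (algebraMap (𝓞 L) L n) :=
                mul_le_mul' (hgv m hm) le_rfl
            _ < vl p (algebraMap (𝓞 L) L b) * 1 :=
                mul_lt_mul_of_pos_left h5 (zero_lt_iff.2 hvb)
            _ = _ := mul_one _
        | add u hu v hv hu' hv' =>
          rw [map_add]
          exact (Valuation.map_add _ _ _).trans_lt (max_lt hu' hv')
      have h6 := hmul b (by rw [← hD]; exact Ideal.mem_span_singleton_self b)
      exact lt_irrefl _ h6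
    have hIp : ¬ I ≤ p.asIdeal := by
      intro hle
      obtain ⟨i, hi, hip⟩ := hI p hp
      exact hip (hle hi)
    have h7 : D * I ≤ p.asIdeal := by
      rw [hDI, Ideal.span_singleton_le_iff_mem]
      exact hsp
    rcases (p.isPrime.mul_le).1 h7 with h8 | h8
    · exact hDp h8
    · exact hIp h8
  · rw [← mul_div_assoc, div_eq_iff hbL, ← map_mul, ← map_mul, hy]

/-- **T2.** -/
theorem badInt_pid (L : Type) [Field L] [NumberField L] {Λ : Finset ℕ} (hΛ : ∀ l ∈ Λ, 2 ≤ l) :
    ∃ J0 : ℕ, ∀ J, J0 ≤ J → IsPrincipalIdealRing (badInt L Λ J) ∧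
      IsFractionRing (badInt L Λ J) L := by
  obtain ⟨J0, hJ0⟩ := exists_reps L hΛ
  refine ⟨J0, fun J hJ => ⟨⟨fun A => ?_⟩, ?_⟩⟩
  · have hrep := hJ0 J hJ
    set ι : 𝓞 L →+* badInt L Λ J := (algebraMap (𝓞 L) L).codRestrict (badInt L Λ J)
      (int_mem Λ J) with hι
    have hιv : ∀ a, ((ι a : badInt L Λ J) : L) = algebraMap (𝓞 L) L a := fun a => rfl
    set A0 : Ideal (𝓞 L) := A.comap ι with hA0
    -- the elements of `A` up to denominators
    have hel : ∀ x ∈ A, ∃ (s y : 𝓞 L), s ≠ 0 ∧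
        (∀ p : Pl L, Pool.Agent.Helper65.CL.Bad Λ J p → s ∉ p.asIdeal) ∧ y ∈ A0 ∧
        algebraMap (𝓞 L) L s * (x : L) = algebraMap (𝓞 L) L y := by
      intro x hx
      obtain ⟨s, y, hs0, hs, hsy⟩ := exists_den L hrep (x : L) x.2
      refine ⟨s, y, hs0, hs, ?_, hsy⟩
      have h1 : ι y = ι s * x := by
        apply Subtype.ext
        rw [Subring.coe_mul, hιv, hιv, hsy]
      change ι y ∈ A
      rw [h1]
      exact A.mul_mem_left _ hx
    by_cases hA0b : A0 = ⊥
    · refine ⟨⟨0, ?_⟩⟩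
      rw [Submodule.span_zero_singleton, eq_bot_iff]
      intro x hx
      obtain ⟨s, y, hs0, -, hy, hsy⟩ := hel x hx
      rw [hA0b, Ideal.mem_bot] at hy
      rw [hy, map_zero] at hsy
      rcases mul_eq_zero.1 hsy with h2 | h2
      · rw [FaithfulSMul.algebraMap_eq_zero_iff] at h2
        exact absurd h2 hs0
      · rw [Submodule.mem_bot]
        exact Subtype.ext h2
    · obtain ⟨I, α, hα0, hαI, hI⟩ := hrep A0 hA0b
      have hαL : algebraMap (𝓞 L) L α ≠ 0 := by
        rwa [Ne, FaithfulSMul.algebraMap_eq_zero_iff]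
      refine ⟨⟨ι α, ?_⟩⟩
      apply le_antisymm
      · intro x hx
        obtain ⟨s, y, hs0, hs, hy, hsy⟩ := hel x hx
        have hsL : algebraMap (𝓞 L) L s ≠ 0 := by
          rwa [Ne, FaithfulSMul.algebraMap_eq_zero_iff]
        have hz : (x : L) / algebraMap (𝓞 L) L α ∈ badInt L Λ J := by
          intro p hp
          obtain ⟨i, hi, hip⟩ := hI p hp
          have h3 : y * i ∈ Ideal.span {α} := by
            rw [← hαI]
            exact Ideal.mul_mem_mul hy hi
          obtain ⟨w, hw⟩ := Ideal.mem_span_singleton'.1 h3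
          have hi0 : i ≠ 0 := by
            rintro rfl
            exact hip p.asIdeal.zero_mem
          have hiL : algebraMap (𝓞 L) L i ≠ 0 := by
            rwa [Ne, FaithfulSMul.algebraMap_eq_zero_iff]
          have h4 : (x : L) / algebraMap (𝓞 L) L α =
              algebraMap (𝓞 L) L w / (algebraMap (𝓞 L) L s * algebraMap (𝓞 L) L i) := by
            rw [div_eq_div_iff hαL (mul_ne_zero hsL hiL)]
            have h5 : algebraMap (𝓞 L) L w * algebraMap (𝓞 L) L α =
                algebraMap (𝓞 L) L y * algebraMap (𝓞 L) L i := by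
              rw [← map_mul, ← map_mul, hw]
            rw [h5, ← hsy]
            ring
          have h6 : vl p (algebraMap (𝓞 L) L s) = 1 := by
            apply le_antisymm (p.valuation_le_one s)
            rw [← not_lt]
            exact fun h => hs p hp ((p.valuation_lt_one_iff_mem (K := L) s).1 h)
          have h7 : vl p (algebraMap (𝓞 L) L i) = 1 := by
            apply le_antisymm (p.valuation_le_one i)
            rw [← not_lt]
            exact fun h => hip ((p.valuation_lt_one_iff_mem (K := L) i).1 h)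
          rw [h4, map_div₀, map_mul, h6, h7, mul_one, div_one]
          exact p.valuation_le_one w
        rw [Submodule.mem_span_singleton]
        refine ⟨⟨_, hz⟩, ?_⟩
        apply Subtype.ext
        change (x : L) / algebraMap (𝓞 L) L α * algebraMap (𝓞 L) L α = x
        rw [div_mul_cancel₀ _ hαL]
      · rw [Submodule.span_singleton_le_iff_mem]
        have h1 : α ∈ A0 * I := by
          rw [hαI]
          exact Ideal.mem_span_singleton_self α
        have h2 : A0 * I ≤ A0 := Ideal.mul_le_left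
        exact h2 h1
  · refine IsFractionRing.of_field (badInt L Λ J) L fun x => ?_
    obtain ⟨a, b, -, rfl⟩ := IsFractionRing.div_surjective (A := 𝓞 L) x
    exact ⟨⟨_, int_mem Λ J a⟩, ⟨_, int_mem Λ J b⟩, rfl⟩

end Pool.Agent.Helper28.TW
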